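import Pool.Agent.R72.OddBox.Tile

set_option autoImplicit false

namespace Pool.Agent.Results.MP_8c362f_co.UpperBound

open Pool.Agent.Helper808.OddBox

/-- For every odd `n ≥ 5` and every `d`, the cube `[n]^d` has a partition into at most
`1.06 * 2.9176 ^ d` odd proper boxes, so `f_odd(n, d) ≤ 1.06 * 2.9176 ^ d`. -/
theorem result (n : ℕ) (hn : Odd n) (h5 : 5 ≤ n) (d : ℕ) :
    (∃ (k : ℕ) (P : Fin k → Fin d → Finset (Fin n)),
      IsOddPartition n d k P ∧ (k : ℝ) ≤ 1.06 * 2.9176 ^ d) ∧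
    (fodd n d : ℝ) ≤ 1.06 * 2.9176 ^ d :=
  ⟨Pool.Agent.R72.OddBox.exists_partition hn h5 d, Pool.Agent.R72.OddBox.fodd_le hn h5 d⟩

end Pool.Agent.Results.MP_8c362f_co.UpperBound
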